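import Pool.Agent.helper70.QSD.SpecB

set_option autoImplicit false

namespace Pool.Agent.helper70.QSD

open Pool.Agent.helper53.AU
open scoped Classical IntermediateField Polynomial

noncomputable section

/-- the function field, over an abstract field of fractions `K` of `k[X]` -/
theorem FFP_aux (k K : Type) [Field k] [Field K] [Algebra k[X] K] [Algebra k K]
    [IsScalarTower k k[X] K] [IsFractionRing k[X] K] (P : k[X][X]) (hP : P.Monic)
    (hirr : Irreducible P) :
    ∃ (F : Type) (_ : Field F) (_ : Algebra k F) (s z : F), Transcendental k s ∧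
    FiniteDimensional k⟮s⟯ F ∧ IntermediateField.adjoin k⟮s⟯ ({z} : Set F) = ⊤ ∧
    (∀ G : k[X][X], ev s z G = 0 ↔ P ∣ G) ∧
    ∀ f : F, ∃ (G : k[X][X]) (h : k[X]), h ≠ 0 ∧ f * Polynomial.aeval s h = ev s z G := by
  have hinj : Function.Injective (algebraMap k[X] K) := IsFractionRing.injective k[X] K
  have hirr' : Irreducible (P.map (algebraMap k[X] K)) :=
    (Polynomial.Monic.irreducible_iff_irreducible_map_fraction_map (K := K) hP).1 hirr
  have : Fact (Irreducible (P.map (algebraMap k[X] K))) := ⟨hirr'⟩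
  set Q := P.map (algebraMap k[X] K) with hQ
  have hQm : Q.Monic := hP.map _
  let s : AdjoinRoot Q := algebraMap K (AdjoinRoot Q) (algebraMap k[X] K Polynomial.X)
  let z : AdjoinRoot Q := AdjoinRoot.root Q
  -- the value of a polynomial at `s`
  have hs : ∀ h : k[X], Polynomial.aeval s h =
      algebraMap K (AdjoinRoot Q) (algebraMap k[X] K h) := by
    intro h
    have h1 : (Polynomial.aeval s : k[X] →ₐ[k] AdjoinRoot Q) =
        (IsScalarTower.toAlgHom k K (AdjoinRoot Q)).comp (IsScalarTower.toAlgHom k k[X] K) := by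
      apply Polynomial.algHom_ext
      rw [Polynomial.aeval_X]
      rfl
    rw [h1]
    rfl
  have hev : ∀ G : k[X][X], ev s z G = AdjoinRoot.mk Q (G.map (algebraMap k[X] K)) := by
    intro G
    unfold ev
    have h1 : ((Polynomial.aeval s : k[X] →ₐ[k] AdjoinRoot Q) : k[X] →+* AdjoinRoot Q) =
        (algebraMap K (AdjoinRoot Q)).comp (algebraMap k[X] K) := by
      exact RingHom.ext hs
    rw [h1, ← AdjoinRoot.aeval_eq, Polynomial.aeval_def, Polynomial.eval₂_map]
  have hfrac : ∀ f : AdjoinRoot Q, ∃ (G : k[X][X]) (h : k[X]), h ≠ 0 ∧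
      f * Polynomial.aeval s h = ev s z G := by
    intro f
    obtain ⟨g, rfl⟩ := AdjoinRoot.mk_surjective f
    obtain ⟨b, hb0, hb⟩ := IsLocalization.integerNormalization_spec (nonZeroDivisors k[X]) g
    refine ⟨IsLocalization.integerNormalization (nonZeroDivisors k[X]) g, b,
      nonZeroDivisors.ne_zero hb0, ?_⟩
    rw [hev, hb, hs]
    have h1 : algebraMap K (AdjoinRoot Q) (algebraMap k[X] K b) =
        AdjoinRoot.mk Q (Polynomial.C (algebraMap k[X] K b)) := by
      rw [AdjoinRoot.mk_C]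
      rfl
    rw [h1, ← map_mul]
    congr 1
    rw [mul_comm, ← Polynomial.smul_eq_C_mul, algebraMap_smul]
  have htr : Transcendental k s := by
    rw [transcendental_iff]
    intro h hh
    rw [hs] at hh
    have h1 := (algebraMap K (AdjoinRoot Q)).injective (hh.trans (map_zero _).symm)
    exact hinj (h1.trans (map_zero _).symm)
  have hmem : ∀ h : k[X], Polynomial.aeval s h ∈ k⟮s⟯ := by
    intro h
    have h1 : s ∈ k⟮s⟯ := IntermediateField.mem_adjoin_simple_self k s
    have h2 : Polynomial.aeval s h = ((Polynomial.aeval (⟨s, h1⟩ : k⟮s⟯) h : k⟮s⟯) : AdjoinRoot Q) := by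
      rw [← IntermediateField.algebraMap_apply, ← Polynomial.aeval_algebraMap_apply]
      rfl
    rw [h2]
    exact Subtype.property _
  have htop : IntermediateField.adjoin k⟮s⟯ ({z} : Set (AdjoinRoot Q)) = ⊤ := by
    rw [eq_top_iff]
    intro f _
    obtain ⟨G, h, hh, hf⟩ := hfrac f
    have h0 : Polynomial.aeval s h ≠ 0 := by
      intro h1
      exact hh ((transcendental_iff.1 htr) h h1)
    have hz : z ∈ IntermediateField.adjoin k⟮s⟯ ({z} : Set (AdjoinRoot Q)) :=
      IntermediateField.mem_adjoin_simple_self _ z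
    have h2 : ∀ h : k[X], Polynomial.aeval s h ∈
        IntermediateField.adjoin k⟮s⟯ ({z} : Set (AdjoinRoot Q)) := fun h =>
      IntermediateField.algebraMap_mem _ (⟨Polynomial.aeval s h, hmem h⟩ : k⟮s⟯)
    have h3 : ev s z G ∈ IntermediateField.adjoin k⟮s⟯ ({z} : Set (AdjoinRoot Q)) := by
      unfold ev
      rw [Polynomial.eval₂_eq_sum_range]
      exact sum_mem (fun i _ => mul_mem (h2 _) (pow_mem hz i))
    have h4 : f = ev s z G / Polynomial.aeval s h := by
      rw [← hf, mul_div_cancel_right₀ _ h0]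
    rw [h4]
    exact div_mem h3 (h2 h)
  have hroot : ev s z P = 0 := by
    rw [hev, ← hQ, AdjoinRoot.mk_self]
  have hint : IsIntegral k⟮s⟯ z := by
    let φ : k[X] →+* k⟮s⟯ :=
      ((Polynomial.aeval (⟨s, IntermediateField.mem_adjoin_simple_self k s⟩ : k⟮s⟯) :
        k[X] →ₐ[k] k⟮s⟯) : k[X] →+* k⟮s⟯)
    refine ⟨P.map φ, hP.map φ, ?_⟩
    rw [Polynomial.eval₂_map]
    have h1 : (algebraMap k⟮s⟯ (AdjoinRoot Q)).comp φ =
        ((Polynomial.aeval s : k[X] →ₐ[k] AdjoinRoot Q) : k[X] →+* AdjoinRoot Q) := by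
      apply RingHom.ext
      intro h
      show algebraMap k⟮s⟯ (AdjoinRoot Q) (Polynomial.aeval _ h) = Polynomial.aeval s h
      rw [← Polynomial.aeval_algebraMap_apply]
      rfl
    rw [h1]
    exact hroot
  refine ⟨AdjoinRoot Q, inferInstance, inferInstance, s, z, htr, ?_, htop, ?_, hfrac⟩
  · have h1 := IntermediateField.adjoin.finiteDimensional hint
    rw [htop] at h1
    exact Module.Finite.equiv (IntermediateField.topEquiv (F := k⟮s⟯) (E := AdjoinRoot Q)).toLinearEquiv
  · intro G
    rw [hev, AdjoinRoot.mk_eq_zero, hQ]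
    exact Polynomial.map_dvd_map _ hinj hP

theorem FFP : FFP_stmt := by
  intro k _ P hP hirr
  obtain ⟨F, i1, i2, s, z, h1, h2, h3, h4, h5⟩ := FFP_aux k (FractionRing k[X]) P hP hirr
  exact ⟨F, i1, i2, s, z, ⟨s, h1, h2⟩, h1, h2, h3, h4, h5⟩

end

end Pool.Agent.helper70.QSD
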